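import Mathlib
import Pool.Agent.Helper206.Bottom.Spec
import Pool.Agent.Helper206.Bottom.NotQuot

set_option autoImplicit false

namespace Pool.Agent.Results.MP_e5c6eb_gt.PuncturedBall

open Pool.Agent.Helper206.Bottom
open Set
open scoped ContDiff

/-! Sanity checks of the normalisations, for the unit ball with its complex hyperbolic metric. -/

/-- The complex hyperbolic metric of the unit ball. -/
noncomputable def hyp {n : ℕ} : Cn n → Cn n → Cn n → ℝ :=
  gmet (fun s => (1 - s)⁻¹) (fun s => ((1 - s) ^ 2)⁻¹)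

lemma hyp_self {n : ℕ} (z v : Cn n) : hyp z v v = hypSq z v := by
  unfold hyp hypSq
  rw [gmet_self]; ring

/-- The Ricci curvature of the complex hyperbolic metric is `-2(n+1)`. -/
theorem hyp_ricci {n : ℕ} : ∃ Γ, IsLeviCivita (unitBall n) hyp Γ ∧
    ∀ z ∈ unitBall n, ∀ v, ricci Γ z v v = -2 * (n + 1) * hyp z v v := by
  have h1 : ∀ s : ℝ, s < 1 → HasDerivAt (fun s : ℝ => (1 - s)⁻¹) (((1 - s) ^ 2)⁻¹) s := by
    intro s hs
    have h0 : (1 - s) ≠ 0 := by linarith
    have := ((hasDerivAt_id s).const_sub 1).inv h0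
    refine HasDerivAt.congr_deriv this ?_
    simp [neg_div]
  have h2 : ∀ s : ℝ, s < 1 → HasDerivAt (fun s : ℝ => ((1 - s) ^ 2)⁻¹)
      (0 * ((1 - s)⁻¹ + s * ((1 - s) ^ 2)⁻¹) + 2 * (1 - s)⁻¹ * ((1 - s) ^ 2)⁻¹) s := by
    intro s hs
    have h0 : (1 - s) ≠ 0 := by linarith
    have := (((hasDerivAt_id s).const_sub 1).pow 2).inv (pow_ne_zero 2 h0)
    refine HasDerivAt.congr_deriv this ?_
    simp only [id, Pi.pow_apply]
    field_simp
    norm_num
    ring
  refine ⟨chr (fun s => (1 - s)⁻¹) (fun _ => 0), fun z hz x v w => ?_, fun z hz v => ?_⟩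
  · have hz' : esq z < 1 := hz
    refine chr_leviCivita (h1 _ hz') (h2 _ hz') ?_ rfl x v w
    show (1 - esq z)⁻¹ * (1 - esq z)⁻¹ = ((1 - esq z) ^ 2)⁻¹
    rw [← inv_pow, pow_two]
  · have hz' : esq z < 1 := hz
    have h3 : HasDerivAt (fun _ : ℝ => (0 : ℝ)) 0 (esq z) := hasDerivAt_const _ _
    rw [ricci_chr (h1 _ hz') h3 (by rw [← inv_pow]; ring), hyp_self]
    unfold hypSq
    have h0 : (1 - esq z) ≠ 0 := by linarith
    field_simp
    ring

/-- The unit ball with its complex hyperbolic metric is a quotient, by the trivial group. -/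
theorem hyp_quotient {n : ℕ} : IsHypQuotient (unitBall n) hyp := by
  refine ⟨⊥, ?_, ?_, ?_, id, contDiffOn_id, image_id _, ?_, ?_⟩
  · intro γ hγ
    rw [Subgroup.mem_bot] at hγ
    subst hγ
    refine ⟨id, ⟨bijOn_id _, differentiableOn_id, fun z _ v => ?_⟩, fun z => rfl⟩
    simp
  · intro γ hγ _; exact Subgroup.mem_bot.1 hγ
  · intro K _
    refine (finite_singleton (1 : Equiv.Perm (unitBall n))).subset ?_
    rintro γ ⟨hγ, _⟩
    exact Subgroup.mem_bot.1 hγ
  · intro z w
    constructor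
    · intro h; exact ⟨1, Subgroup.one_mem _, Subtype.ext h⟩
    · rintro ⟨γ, hγ, h⟩
      rw [Subgroup.mem_bot.1 hγ] at h
      exact congrArg Subtype.val h
  · intro z _ v
    rw [fderiv_id]
    exact hyp_self z v

/-- In every complex dimension `n ≥ 2` there is a domain `X` in complex n-space with a complete
Kähler metric, with more than one end, Ricci curvature at least `-2(n+1)` and bottom of the
spectrum `n^2`, which is not isometric to a quotient of complex hyperbolic space. -/
theorem result (n : ℕ) (hn : 2 ≤ n) :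
    ∃ (X : Set (Cn n)) (g : Cn n → Cn n → Cn n → ℝ),
      IsOpen X ∧ IsConnected X ∧ ¬ IsCompact X ∧
      IsKahlerMetric X g ∧
      IsCompleteMetric X g ∧
      HasMoreThanOneEnd X g ∧
      RicciBoundedBelow X g (-2 * (n + 1)) ∧
      bottomSpectrum X g = (n : ℝ) ^ 2 ∧
      ¬ IsHypQuotient X g :=
  ⟨pball n, g0, isOpen_pball, isConnected_pball hn, not_isCompact_pball hn, g0_isKahler,
    g0_complete, g0_ends hn, g0_ricci, g0_bottom hn, g0_not_hypQuotient hn⟩

end Pool.Agent.Results.MP_e5c6eb_gt.PuncturedBall
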